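import Pool.Agent.H.MP_341645_pr.N
import Pool.Agent.H.MP_341645_pr.HL

set_option autoImplicit false

namespace Pool.Agent.H.MP_341645_pr

noncomputable section

attribute [local irreducible] ap am

def act : List Bool → St → St
  | [], h => h
  | b :: w, h => act w (if b then ap h else am h)

def Kc (h : St) : Prop := ∀ w, 0 ≤ ell (act w h)

lemma Kc_good {h : St} (hh : Good h) : Kc h := by
  intro w
  induction w generalizing h with
  | nil => exact div_nonneg (good_step hh).2.2 (by norm_num)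
  | cons b w ih =>
    cases b
    · exact ih (good_step hh).1
    · exact ih (good_step hh).2.1

lemma ap_add (f g : St) : ap (f + g) = ap f + ap g := map_add Ap f g
lemma am_add (f g : St) : am (f + g) = am f + am g := map_add Am f g
lemma ap_smul (t : ℝ) (f : St) : ap (t • f) = t • ap f := map_smul Ap t f
lemma am_smul (t : ℝ) (f : St) : am (t • f) = t • am f := map_smul Am t f
lemma ap_zero : ap 0 = 0 := map_zero Ap
lemma am_zero : am 0 = 0 := map_zero Am

lemma act_add (w : List Bool) (f g : St) : act w (f + g) = act w f + act w g := by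
  induction w generalizing f g with
  | nil => rfl
  | cons b w ih => cases b <;> simp [act, ap_add, am_add, ih]

lemma Kc_add {f g : St} (hf : Kc f) (hg : Kc g) : Kc (f + g) := fun w => by
  rw [act_add, ell_add]; exact add_nonneg (hf w) (hg w)

lemma Kc_ap {f : St} (hf : Kc f) : Kc (ap f) := fun w => hf (true :: w)
lemma Kc_am {f : St} (hf : Kc f) : Kc (am f) := fun w => hf (false :: w)

lemma Kc_zero : Kc 0 := fun w => by
  induction w with
  | nil => exact ell_zero.ge
  | cons b w ih => cases b <;> simpa [act, ap_zero, am_zero] using ih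

abbrev T3 := St × St × St

def B1 : T3 →ₗ[ℝ] T3 where
  toFun h := (am h.2.1 + ap h.2.2, am h.2.2, ap h.2.1)
  map_add' f g := by simp [ap_add, am_add]; abel
  map_smul' t f := by simp [ap_smul, am_smul]

def B2 : T3 →ₗ[ℝ] T3 where
  toFun h := (ap h.2.2, am h.2.2 + ap h.1, am h.1)
  map_add' f g := by simp [ap_add, am_add]; abel
  map_smul' t f := by simp [ap_smul, am_smul]

def B3 : T3 →ₗ[ℝ] T3 where
  toFun h := (am h.2.1, ap h.1, am h.1 + ap h.2.1)
  map_add' f g := by simp [ap_add, am_add]; abel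
  map_smul' t f := by simp [ap_smul, am_smul]

lemma B1_eq (h : T3) : B1 h = (am h.2.1 + ap h.2.2, am h.2.2, ap h.2.1) := rfl
lemma B2_eq (h : T3) : B2 h = (ap h.2.2, am h.2.2 + ap h.1, am h.1) := rfl
lemma B3_eq (h : T3) : B3 h = (am h.2.1, ap h.1, am h.1 + ap h.2.1) := rfl

def stp4 (c d : Fin 4) : T3 →ₗ[ℝ] T3 :=
  ![![0, B1, B2, B3], ![B1, 0, B3, B2], ![B2, B3, 0, B1], ![B3, B2, B1, 0]] c d

def r3 : T3 := (r0, r0, r0)

def V4 : Fin 4 → List (Fin 4) → T3
  | _, [] => r3
  | c, d :: w => stp4 c d (V4 d w)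

def ms (h : T3) : ℝ := (ell h.1 + ell h.2.1 + ell h.2.2) / 2

def L4 : List (Fin 4) → ℝ
  | [] => 1
  | c :: w => ms (V4 c w)

def W4 (w : List (Fin 4)) : ℝ := L4 w / 6 ^ w.length

lemma stp4_cases (c d : Fin 4) : stp4 c d = 0 ∨ stp4 c d = B1 ∨ stp4 c d = B2 ∨ stp4 c d = B3 := by
  fin_cases c <;> fin_cases d <;> simp [stp4]

lemma V4_K (c : Fin 4) (w : List (Fin 4)) : Kc (V4 c w).1 ∧ Kc (V4 c w).2.1 ∧ Kc (V4 c w).2.2 := by
  induction w generalizing c with
  | nil => exact ⟨Kc_good good_r0, Kc_good good_r0, Kc_good good_r0⟩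
  | cons d w ih =>
    obtain ⟨h1, h2, h3⟩ := ih d
    rw [V4]
    rcases stp4_cases c d with h | h | h | h <;> rw [h]
    · exact ⟨Kc_zero, Kc_zero, Kc_zero⟩
    · exact ⟨Kc_add (Kc_am h2) (Kc_ap h3), Kc_am h3, Kc_ap h2⟩
    · exact ⟨Kc_ap h3, Kc_add (Kc_am h3) (Kc_ap h1), Kc_am h1⟩
    · exact ⟨Kc_am h2, Kc_ap h1, Kc_add (Kc_am h1) (Kc_ap h2)⟩

lemma W4_nonneg (w : List (Fin 4)) : 0 ≤ W4 w := by
  refine div_nonneg ?_ (by positivity)
  rcases w with _ | ⟨c, w⟩
  · exact zero_le_one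
  · obtain ⟨h1, h2, h3⟩ := V4_K c w
    exact div_nonneg (add_nonneg (add_nonneg (h1 []) (h2 [])) (h3 [])) (by norm_num)

lemma ms_add (f g : T3) : ms (f + g) = ms f + ms g := by
  simp only [ms, Prod.fst_add, Prod.snd_add, ell_add]; ring

lemma ms_smul (t : ℝ) (f : T3) : ms (t • f) = t * ms f := by
  simp only [ms, Prod.smul_fst, Prod.smul_snd, ell_smul]; ring

lemma ms_zero : ms 0 = 0 := by simp [ms, ell_zero]

lemma ms_B (h : T3) : ms (B1 h) + ms (B2 h) + ms (B3 h) = 6 * ms h := by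
  simp only [ms, B1_eq, B2_eq, B3_eq, ell_add]
  linear_combination ell_step h.1 + ell_step h.2.1 + ell_step h.2.2

lemma L4_left (w : List (Fin 4)) : ∑ c, L4 (c :: w) = 6 * L4 w := by
  rcases w with _ | ⟨d, w⟩
  · simp [L4, V4, ms, r3, ell_r0]; norm_num
  · have := ms_B (V4 d w)
    fin_cases d <;> simp [L4, V4, Fin.sum_univ_four, stp4, ms_zero] at this ⊢ <;> linarith

lemma B_r3 : B1 r3 + B2 r3 + B3 r3 = (6:ℝ) • r3 := by
  have h : (6:ℝ) • r0 = (ap r0 + am r0) + (ap r0 + am r0) := by rw [id1, ← add_smul]; norm_num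
  simp only [B1_eq, B2_eq, B3_eq, r3, Prod.mk_add_mk, Prod.smul_mk, h, Prod.mk.injEq]
  refine ⟨?_, ?_, ?_⟩ <;> abel

def J (h : T3) : Prop :=
  ap (am h.1) + am (ap h.1) + ap (ap h.2.1) + am (am h.2.2) = (6 * ms h) • r0 ∧
  ap (am h.2.1) + am (ap h.2.1) + ap (ap h.2.2) + am (am h.1) = (6 * ms h) • r0 ∧
  ap (am h.2.2) + am (ap h.2.2) + ap (ap h.1) + am (am h.2.1) = (6 * ms h) • r0

lemma J_r3 : J r3 := by
  have h : ap (am r0) + am (ap r0) + ap (ap r0) + am (am r0) = (6 * ms r3) • r0 := by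
    have e : ap (am r0) + am (ap r0) + ap (ap r0) + am (am r0)
      = ap (ap r0 + am r0) + am (ap r0 + am r0) := by rw [ap_add, am_add]; abel
    rw [e, id1, ap_smul, am_smul, ← smul_add, id1, smul_smul]
    norm_num [ms, r3, ell_r0]
  exact ⟨h, h, h⟩

lemma J_aux (f g : St) : (6 * ((ell (am f + ap g) + ell (am g) + ell (ap f)) / 2)) • r0
    = (9 * ell f) • r0 + (9 * ell g) • r0 := by
  rw [← add_smul, ell_add]
  congr 1
  linear_combination 3 * ell_step f + 3 * ell_step g

lemma J_B1 (h : T3) : J (B1 h) := by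
  simp only [J, ms, B1_eq, J_aux, ap_add, am_add]
  refine ⟨?_, ?_, ?_⟩
  · rw [← id4, ← id3]; abel
  · rw [← id2, ← id4]; abel
  · rw [← id3, ← id2]; abel

lemma J_rot {h : T3} (hh : J h) : J (h.2.2, h.1, h.2.1) := by
  have e : ms (h.2.2, h.1, h.2.1) = ms h := by simp only [ms]; ring
  simp only [J, e]
  exact ⟨hh.2.2, hh.1, hh.2.1⟩

lemma V4_J (c : Fin 4) (w : List (Fin 4)) : J (V4 c w) := by
  rcases w with _ | ⟨d, w⟩
  · exact J_r3
  · rw [V4]
    generalize V4 d w = h
    rcases stp4_cases c d with e | e | e | e <;> rw [e]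
    · simp [J, ap_zero, am_zero, ms_zero]
    · exact J_B1 h
    · exact J_rot (J_B1 (h.2.1, h.2.2, h.1))
    · exact J_rot (J_rot (J_B1 (h.2.2, h.1, h.2.1)))

lemma J_use {h : T3} (hh : J h) : B1 (B1 h) + B2 (B2 h) + B3 (B3 h) = (6 * ms h) • r3 ∧
    B2 (B3 h) + B3 (B2 h) = (6 * ms h) • r3 ∧ B1 (B3 h) + B3 (B1 h) = (6 * ms h) • r3 ∧
    B1 (B2 h) + B2 (B1 h) = (6 * ms h) • r3 := by
  obtain ⟨h1, h2, h3⟩ := hh
  simp only [B1_eq, B2_eq, B3_eq, r3, Prod.mk_add_mk, Prod.smul_mk, Prod.mk.injEq, ap_add, am_add]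
  refine ⟨⟨?_, ?_, ?_⟩, ⟨?_, ?_, ?_⟩, ⟨?_, ?_, ?_⟩, ⟨?_, ?_, ?_⟩⟩ <;>
    first | (rw [← h1]; abel1) | (rw [← h2]; abel1) | (rw [← h3]; abel1)

lemma V4_gap (c : Fin 4) (x y : List (Fin 4)) :
    ∑ u, V4 c (x ++ u :: y) = (6 * L4 y) • V4 c x := by
  induction x generalizing c with
  | nil =>
    rcases y with _ | ⟨d, y⟩
    · have := B_r3
      fin_cases c <;> simp [V4, L4, Fin.sum_univ_four, stp4, ← this] <;> abel
    · obtain ⟨h1, h2, h3, h4⟩ := J_use (V4_J d y)
      simp only [List.nil_append, V4, L4]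
      generalize V4 d y = f at *
      fin_cases c <;> fin_cases d <;> simp [Fin.sum_univ_four, stp4] <;>
        first | (rw [← h1]; abel1) | (rw [← h2]; abel1) | (rw [← h3]; abel1) | (rw [← h4]; abel1) |
          exact h1 | exact h2 | exact h3 | exact h4
  | cons e w ih => simp only [List.cons_append, V4, ← map_sum, ih, map_smul]

lemma ms_sum (g : Fin 4 → T3) : ∑ c, ms (g c) = ms (∑ c, g c) := by
  simp [Fin.sum_univ_four, ms_add]

lemma W4_left (w : List (Fin 4)) : ∑ c, W4 (c :: w) = W4 w := by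
  simp only [W4, List.length_cons, ← Finset.sum_div, L4_left]; field_simp; ring

lemma W4_gap (x y : List (Fin 4)) : ∑ u, W4 (x ++ u :: y) = W4 x * W4 y := by
  rcases x with _ | ⟨d, x⟩
  · simp only [List.nil_append, W4_left]; simp [W4, L4]
  · simp only [W4, List.cons_append, List.length_cons, List.length_append,
      ← Finset.sum_div, L4, ms_sum, V4_gap, ms_smul]
    field_simp; ring

lemma W4_right (w : List (Fin 4)) : ∑ c, W4 (w ++ [c]) = W4 w := by
  rw [W4_gap]; simp [W4, L4]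

lemma W4_pp (c : Fin 4) : W4 [c, c] = 0 := by
  fin_cases c <;> simp [W4, L4, V4, stp4, ms_zero]

lemma W4_0101 : W4 [0, 1, 0, 1] = 131 / 31104 := by
  simp [W4, L4, V4, stp4, B1_eq, ms, r3, ell, ap, am, r0, St.a, St.b, St.x, St.y, St.z, St.p, St.q,
    St.s, cons]
  norm_num

lemma WH_gap4 (n : ℕ) : ∀ x y : List (Fin (2 + 2)), x.length + y.length = n →
    ∑ a, WH (x ++ a :: y) = WH x * WH y := by
  induction n with
  | zero =>
    intro x y h
    obtain rfl : x = [] := List.length_eq_zero_iff.1 (by omega)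
    simp only [List.nil_append, WH_left, WH_nil, one_mul]
  | succ n ih =>
    intro x y hn
    rcases x with _ | ⟨c, x⟩
    · simp only [List.nil_append, WH_left, WH_nil, one_mul]
    rcases y with _ | ⟨d, y⟩
    · rw [WH_nil, mul_one]
      exact WH_right (c :: x)
    by_cases hx : Pr (c :: x)
    swap
    · rw [WH_np _ hx, zero_mul]
      exact Finset.sum_eq_zero fun a _ => WH_np _ fun e => hx (Pr_append e).1
    by_cases hy : Pr (d :: y)
    swap
    · rw [WH_np _ hy, mul_zero]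
      exact Finset.sum_eq_zero fun a _ => WH_np _ fun e => hy (Pr_tail (Pr_append e).2)
    have h1 := Finset.sum_congr (s₁ := Finset.univ) rfl fun a _ =>
      WH_rec (c :: x ++ a :: d :: y) (by simp)
    have h2 : ∑ a, K WH (c :: x ++ a :: d :: y) = 2 * WH (c :: x ++ d :: y) := by
      rw [K_sum _ _ _ _ hx, K_sum' _ _ _ hy]; ring
    have h3 : ∑ a, D WH (c :: x ++ a :: d :: y) = 4 * WH (c :: x ++ d :: y)
        + D WH (c :: x) * WH (d :: y) + WH (c :: x) * D WH (d :: y) := by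
      have : ∀ a, D (fun w => WH (c :: x ++ w)) (a :: d :: y) = WH (c :: x ++ d :: y) +
        D (fun w => WH (c :: x ++ a :: w)) (d :: y) := fun a => rfl
      simp only [D_append, this, Finset.sum_add_distrib, D_sum]
      rw [D_congr (g := fun w => WH (d :: y) * WH w) fun w hw => by
          rw [ih w _ (by omega), mul_comm],
        D_congr (x := d :: y) (g := fun w => WH (c :: x) * WH w) fun w hw => ih _ w (by omega),
        D_mul, D_mul]
      simp; ring
    simp only [Finset.sum_sub_distrib, ← Finset.mul_sum, List.length_append, List.length_cons] at h1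
    rw [h2, h3, WH_D _ (by simp) hx, WH_D _ (by simp) hy] at h1
    simp only [List.length_cons] at h1
    push_cast at h1
    refine mul_left_cancel₀ (a := (2 * x.length + 2 * y.length + 8 : ℝ)) (by positivity) ?_
    linear_combination h1

lemma WH_0101 : WH (q := 2) [0, 1, 0, 1] = 1 / 240 := by
  simp [WH, Hh, Pr, D]; norm_num

end

end Pool.Agent.H.MP_341645_pr
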